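import Mathlib

set_option autoImplicit false

/-!
Two elementary inequalities for finite sums, used for the uniqueness of completions of maximal
equiangular tight frames.
-/

namespace Pool.Agent.V11226.SU

open Finset

theorem ineqA {ι : Type*} (S : Finset ι) (δ b : ι → ℝ) (d u q t : ℝ)
    (hu : 0 < u) (hq : 0 < q)
    (hδ : ∀ i ∈ S, -(1 / u ^ 2) ≤ δ i) (hδq : ∀ i ∈ S, δ i + 1 / u ^ 2 ≤ q)
    (hb : ∀ i ∈ S, |b i| ≤ 2 * √q / u * (√(δ i + 1 / u ^ 2) + √q / u))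
    (hs : ∑ i ∈ S, δ i = t) (hbd : ∑ i ∈ S, b i * δ i = 2 * d / u ^ 2 * q * t) :
    d * t ≤ (u + 1) * t + (S.card : ℝ) / u ^ 2 * (u + 2 + 1 / √q) := by
  have hsq : 0 < √q := Real.sqrt_pos.mpr hq
  have hqq : √q * √q = q := Real.mul_self_sqrt hq.le
  have hterm : ∀ i ∈ S, b i * δ i ≤ (2 * q * (u + 1) / u ^ 2) * δ i +
      (2 * q * (u + 1) / u ^ 2 + 2 * (√q + q) / u ^ 2) * (1 / u ^ 2) := by
    intro i hi
    have h1 := hδ i hi
    have h2 := hδq i hi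
    have h3 := hb i hi
    rcases le_or_gt 0 (δ i) with h0 | h0
    · have h4 : √(δ i + 1 / u ^ 2) ≤ √q := Real.sqrt_le_sqrt h2
      have h5 : |b i| ≤ 2 * q * (u + 1) / u ^ 2 := by
        refine h3.trans ?_
        have h6 : 2 * √q / u * (√(δ i + 1 / u ^ 2) + √q / u) ≤ 2 * √q / u * (√q + √q / u) := by
          gcongr
        refine h6.trans (le_of_eq ?_)
        field_simp
        nlinarith
      have h7 : b i * δ i ≤ (2 * q * (u + 1) / u ^ 2) * δ i :=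
        mul_le_mul_of_nonneg_right ((le_abs_self _).trans h5) h0
      have h8 : 0 ≤ (2 * q * (u + 1) / u ^ 2 + 2 * (√q + q) / u ^ 2) * (1 / u ^ 2) := by positivity
      linarith
    · have h4 : √(δ i + 1 / u ^ 2) ≤ 1 / u := by
        rw [Real.sqrt_le_left (by positivity)]
        have : (1 / u) ^ 2 = 1 / u ^ 2 := by field_simp
        rw [this]
        linarith
      have h5 : |b i| ≤ 2 * (√q + q) / u ^ 2 := by
        refine h3.trans ?_
        have h6 : 2 * √q / u * (√(δ i + 1 / u ^ 2) + √q / u) ≤ 2 * √q / u * (1 / u + √q / u) := by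
          gcongr
        refine h6.trans (le_of_eq ?_)
        field_simp
        nlinarith
      have h7 : b i * δ i ≤ 2 * (√q + q) / u ^ 2 * (-δ i) := by
        have h8 : b i * δ i = (-b i) * (-δ i) := by ring
        rw [h8]
        exact mul_le_mul_of_nonneg_right ((neg_le_abs _).trans h5) (by linarith)
      have h9 : 0 ≤ 2 * q * (u + 1) / u ^ 2 := by positivity
      have h10 : 0 ≤ 2 * (√q + q) / u ^ 2 := by positivity
      have h11 : -δ i ≤ 1 / u ^ 2 := by linarith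
      have h12 := mul_le_mul_of_nonneg_left h11 h9
      have h13 := mul_le_mul_of_nonneg_left h11 h10
      nlinarith
  have hsum := sum_le_sum hterm
  rw [sum_add_distrib, ← mul_sum, hs, hbd, sum_const, nsmul_eq_mul] at hsum
  -- multiply by `u^2 / (2 q)`
  have hpos : 0 < u ^ 2 / (2 * q) := by positivity
  have h := mul_le_mul_of_nonneg_left hsum hpos.le
  have e1 : u ^ 2 / (2 * q) * (2 * d / u ^ 2 * q * t) = d * t := by
    field_simp
  have e2 : u ^ 2 / (2 * q) * (2 * q * (u + 1) / u ^ 2 * t + (S.card : ℝ) *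
      ((2 * q * (u + 1) / u ^ 2 + 2 * (√q + q) / u ^ 2) * (1 / u ^ 2))) =
      (u + 1) * t + (S.card : ℝ) / u ^ 2 * (u + 2 + 1 / √q) := by
    have e3 : √q / q = 1 / √q := by
      rw [div_eq_div_iff hq.ne' hsq.ne']
      linarith
    have e4 : 2 * (√q + q) / u ^ 2 = 2 * q * (1 / √q + 1) / u ^ 2 := by
      rw [← e3]
      field_simp
    rw [e4]
    field_simp
    ring
  rw [e1, e2] at h
  exact h

theorem ineqB {ι : Type*} (S : Finset ι) (δ b s : ι → ℝ) (d u q t : ℝ)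
    (hu : 0 < u) (hq : 0 < q) (ht : 0 < t) (hd : 0 ≤ d)
    (hs0 : ∀ i ∈ S, 0 ≤ s i)
    (hb : ∀ i ∈ S, b i ^ 2 ≤ 4 * q / u ^ 2 * s i)
    (hs : ∑ i ∈ S, s i ^ 2 ≤ 2 * d / u ^ 2 * t ^ 2)
    (hδ : ∑ i ∈ S, δ i ^ 2 = 2 * t * d / u ^ 2 - t ^ 2)
    (hbd : ∑ i ∈ S, b i * δ i = 2 * d / u ^ 2 * q * t) :
    q * d ^ 2 ≤ √(2 * d * ((S.card : ℝ) / u ^ 2)) * (2 * d - t * u ^ 2) := by
  have h1 : (∑ i ∈ S, b i * δ i) ^ 2 ≤ (∑ i ∈ S, b i ^ 2) * ∑ i ∈ S, δ i ^ 2 :=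
    sum_mul_sq_le_sq_mul_sq S b δ
  have h2 : ∑ i ∈ S, b i ^ 2 ≤ 4 * q / u ^ 2 * ∑ i ∈ S, s i := by
    rw [mul_sum]
    exact sum_le_sum hb
  have h3 : (∑ i ∈ S, s i) ^ 2 ≤ (S.card : ℝ) * ∑ i ∈ S, s i ^ 2 := sq_sum_le_card_mul_sum_sq
  have hS0 : 0 ≤ ∑ i ∈ S, s i := sum_nonneg hs0
  have h4 : ∑ i ∈ S, s i ≤ √(2 * d * ((S.card : ℝ) / u ^ 2)) * t := by
    have h5 : (∑ i ∈ S, s i) ^ 2 ≤ 2 * d * ((S.card : ℝ) / u ^ 2) * t ^ 2 := by
      refine h3.trans ((mul_le_mul_of_nonneg_left hs (by positivity)).trans (le_of_eq ?_))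
      ring
    have h6 : ∑ i ∈ S, s i = √((∑ i ∈ S, s i) ^ 2) := (Real.sqrt_sq hS0).symm
    rw [h6]
    have h7 : √(2 * d * ((S.card : ℝ) / u ^ 2)) * t = √(2 * d * ((S.card : ℝ) / u ^ 2) * t ^ 2) := by
      have hpos : 0 ≤ 2 * d * ((S.card : ℝ) / u ^ 2) :=
        mul_nonneg (mul_nonneg (by norm_num) hd) (div_nonneg (Nat.cast_nonneg _) (sq_nonneg _))
      rw [Real.sqrt_mul hpos (t ^ 2), Real.sqrt_sq ht.le]
    rw [h7]
    exact Real.sqrt_le_sqrt h5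
  have hV : 0 ≤ 2 * t * d / u ^ 2 - t ^ 2 := by
    rw [← hδ]
    exact sum_nonneg fun i _ => sq_nonneg _
  rw [hbd, hδ] at h1
  have h5 : (2 * d / u ^ 2 * q * t) ^ 2 ≤ (4 * q / u ^ 2 * (√(2 * d * ((S.card : ℝ) / u ^ 2)) * t)) *
      (2 * t * d / u ^ 2 - t ^ 2) := by
    refine h1.trans (mul_le_mul_of_nonneg_right ?_ hV)
    exact h2.trans (mul_le_mul_of_nonneg_left h4 (by positivity))
  -- divide by `4 q t² / u⁴`
  have hpos : 0 < u ^ 4 / (4 * q * t ^ 2) := by positivity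
  have h6 := mul_le_mul_of_nonneg_left h5 hpos.le
  have e1 : u ^ 4 / (4 * q * t ^ 2) * (2 * d / u ^ 2 * q * t) ^ 2 = q * d ^ 2 := by
    field_simp
    ring
  have e2 : u ^ 4 / (4 * q * t ^ 2) * ((4 * q / u ^ 2 * (√(2 * d * ((S.card : ℝ) / u ^ 2)) * t)) *
      (2 * t * d / u ^ 2 - t ^ 2)) = √(2 * d * ((S.card : ℝ) / u ^ 2)) * (2 * d - t * u ^ 2) := by
    generalize √(2 * d * ((S.card : ℝ) / u ^ 2)) = A
    field_simp
  rw [e1, e2] at h6
  exact h6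

end Pool.Agent.V11226.SU
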