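import Mathlib
import Pool.Agent.H103R3.FrameCrit
import Pool.Agent.V11226.SU.Ineq

set_option autoImplicit false
set_option linter.unusedSectionVars false

namespace Pool.Agent.V11226.SU

open scoped InnerProductSpace ComplexConjugate
open Finset Pool.Agent.H103R3

variable {d : ℕ}

theorem normSq_inner (u v : EuclideanSpace ℂ (Fin d)) :
    ⟪u, v⟫_ℂ * ⟪v, u⟫_ℂ = ((‖⟪u, v⟫_ℂ‖ ^ 2 : ℝ) : ℂ) := by
  rw [← inner_conj_symm v u, Complex.mul_conj, Complex.normSq_eq_norm_sq]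

/-- The two inequalities for a unit vector `y` which makes the angle of the maximal ETF `x` with all
`x i`, `i ∉ R`, and is not a multiple of an `x k`, `k ∈ R`. -/
theorem two_ineqs (hd : 0 < d) {κ : Type*} [Fintype κ] [DecidableEq κ]
    (hcard : Fintype.card κ = d ^ 2)
    (x : κ → EuclideanSpace ℂ (Fin d)) (h1 : ∀ k, ‖x k‖ = 1)
    (h2 : ∀ k l, k ≠ l → ‖⟪x k, x l⟫_ℂ‖ = 1 / Real.sqrt ((d : ℝ) + 1))
    (R : Finset κ) (y : EuclideanSpace ℂ (Fin d)) (hy : ‖y‖ = 1)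
    (hR : ∀ i, i ∉ R → ‖⟪x i, y⟫_ℂ‖ = 1 / Real.sqrt ((d : ℝ) + 1))
    (hne : ∀ k ∈ R, ∀ c : ℂ, y ≠ c • x k) :
    0 < R.card ∧ ∃ q t : ℝ, 0 < q ∧ 0 < t ∧ q + t = 1 ∧
      1 ≤ q * (1 + ((R.card : ℝ) - 1) / ((d : ℝ) + 1)) ∧
      (d : ℝ) * t ≤ (√((d : ℝ) + 1) + 1) * t +
        ((R.card : ℝ) - 1) / ((d : ℝ) + 1) * (√((d : ℝ) + 1) + 2 + 1 / √q) ∧
      q * (d : ℝ) ^ 2 ≤ √(2 * (d : ℝ) * (((R.card : ℝ) - 1) / ((d : ℝ) + 1))) *
        (2 * (d : ℝ) - t * ((d : ℝ) + 1)) := by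
  have hD : (0 : ℝ) < (d : ℝ) := by exact_mod_cast hd
  set D : ℝ := (d : ℝ) with hDdef
  set u : ℝ := √(D + 1) with hu
  have hu0 : 0 < u := Real.sqrt_pos.mpr (by linarith)
  have hu2 : u ^ 2 = D + 1 := Real.sq_sqrt (by linarith)
  set q : κ → ℝ := fun i => ‖⟪x i, y⟫_ℂ‖ ^ 2 with hqdef
  have hyy : ⟪y, y⟫_ℂ = 1 := by
    rw [inner_self_eq_norm_sq_to_K, hy]; simp
  have hxx : ∀ k, ⟪x k, x k⟫_ℂ = 1 := by
    intro k
    rw [inner_self_eq_norm_sq_to_K, h1]; simp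
  have hq0 : ∀ i, 0 ≤ q i := fun i => sq_nonneg _
  have hqR : ∀ i, i ∉ R → q i = 1 / (D + 1) := by
    intro i hi
    simp only [hqdef, hR i hi]
    rw [div_pow, one_pow, hu2]
  -- F1
  have F1 : ∑ i, q i = D := by
    have h := FrameCrit.sic_frame hd hcard x h1 h2 y y
    rw [hyy, mul_one] at h
    have h' : ((∑ i, q i : ℝ) : ℂ) = ((D : ℝ) : ℂ) := by
      rw [hDdef, Complex.ofReal_natCast, ← h]
      push_cast
      apply sum_congr rfl
      intro i _
      rw [mul_comm, normSq_inner]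
    exact_mod_cast h'
  -- F2
  have F2 : ∑ i, q i ^ 2 = 2 * D / (D + 1) := by
    have h := FrameCrit.sic_design hd hcard x h1 h2 y y y y
    rw [hyy] at h
    have h' : ((∑ i, q i ^ 2 : ℝ) : ℂ) = ((2 * D / (D + 1) : ℝ) : ℂ) := by
      have e : ((2 * D / (D + 1) : ℝ) : ℂ) = ((d : ℂ) / (d + 1)) * (1 * 1 + 1 * 1) := by
        rw [hDdef]
        push_cast
        ring
      rw [e, ← h]
      push_cast
      apply sum_congr rfl
      intro i _
      rw [mul_comm ⟪y, x i⟫_ℂ, normSq_inner, sq]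
    exact_mod_cast h'
  have hn : ((univ \ R).card : ℝ) = D ^ 2 - R.card := by
    have h3 : (univ \ R).card + R.card = d ^ 2 := by
      rw [card_sdiff_add_card_eq_card (subset_univ R), card_univ, hcard]
    have h4 : (((univ \ R).card + R.card : ℕ) : ℝ) = ((d ^ 2 : ℕ) : ℝ) := by rw [h3]
    push_cast at h4
    rw [hDdef]
    linarith
  have SR1 : ∑ i ∈ R, q i = D - (D ^ 2 - R.card) * (1 / (D + 1)) := by
    have h3 := sum_sdiff (subset_univ R) (f := q)
    rw [F1, sum_congr rfl (fun i hi => hqR i (mem_sdiff.mp hi).2), sum_const, nsmul_eq_mul, hn] at h3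
    linarith
  have SR2 : ∑ i ∈ R, q i ^ 2 = 2 * D / (D + 1) - (D ^ 2 - R.card) * (1 / (D + 1)) ^ 2 := by
    have h3 := sum_sdiff (subset_univ R) (f := fun i => q i ^ 2)
    rw [F2, sum_congr rfl (fun i hi => by rw [hqR i (mem_sdiff.mp hi).2]), sum_const,
      nsmul_eq_mul, hn] at h3
    linarith
  have hRne : R.Nonempty := by
    rw [nonempty_iff_ne_empty]
    rintro rfl
    rw [sum_empty, card_empty, Nat.cast_zero, sub_zero] at SR1
    have : D * (D + 1) - D ^ 2 = 0 := by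
      field_simp at SR1
      linarith
    nlinarith
  obtain ⟨k, hkR, hkmax⟩ := exists_max_image R q hRne
  have hr1 : (1 : ℝ) ≤ R.card := by exact_mod_cast hRne.card_pos
  set β : ℝ := ((R.card : ℝ) - 1) / (D + 1) with hβ
  have hβ0 : 0 ≤ β := div_nonneg (by linarith) (by linarith)
  have SR1' : ∑ i ∈ R, q i = 1 + β := by
    rw [SR1, hβ]
    field_simp
    ring
  have SR2' : ∑ i ∈ R, q i ^ 2 = 1 + ((R.card : ℝ) - 1) / (D + 1) ^ 2 := by
    rw [SR2]
    field_simp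
    ring
  have hqk1 : 1 ≤ q k * (1 + β) := by
    have h3 : ∑ i ∈ R, q i ^ 2 ≤ q k * ∑ i ∈ R, q i := by
      rw [mul_sum]
      apply sum_le_sum
      intro i hi
      rw [sq]
      exact mul_le_mul_of_nonneg_right (hkmax i hi) (hq0 i)
    rw [SR1', SR2'] at h3
    have h4 : 0 ≤ ((R.card : ℝ) - 1) / (D + 1) ^ 2 := div_nonneg (by linarith) (by positivity)
    linarith
  have hqk0 : 0 < q k := by
    rcases (hq0 k).lt_or_eq with h | h
    · exact h
    · rw [← h] at hqk1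
      linarith
  -- the component orthogonal to `x k`
  set w : EuclideanSpace ℂ (Fin d) := y - ⟪x k, y⟫_ℂ • x k with hw
  have hkw : ⟪x k, w⟫_ℂ = 0 := by
    rw [hw, inner_sub_right, inner_smul_right, hxx]
    ring
  have hyw : ⟪y, w⟫_ℂ = ((1 - q k : ℝ) : ℂ) := by
    rw [hw, inner_sub_right, inner_smul_right, hyy, normSq_inner, Complex.ofReal_sub,
      Complex.ofReal_one]
  have hww : ⟪w, w⟫_ℂ = ((1 - q k : ℝ) : ℂ) := by
    conv_lhs => rw [hw, inner_sub_left, inner_smul_left, hkw, mul_zero, sub_zero]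
    rw [hyw]
  have hwn : ‖w‖ ^ 2 = 1 - q k := by
    have h4 : ((‖w‖ ^ 2 : ℝ) : ℂ) = ((1 - q k : ℝ) : ℂ) := by
      rw [← hww, inner_self_eq_norm_sq_to_K]
      simp
    exact Complex.ofReal_injective h4
  have hw0 : w ≠ 0 := by
    intro h
    apply hne k hkR ⟪x k, y⟫_ℂ
    rw [hw, sub_eq_zero] at h
    exact h
  set t : ℝ := 1 - q k with ht
  have ht0 : 0 < t := by
    rw [← hwn]
    have := norm_pos_iff.mpr hw0
    positivity
  -- δ and b
  set δ : κ → ℝ := fun i => q i - 1 / (D + 1) with hδ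
  set b : κ → ℝ := fun i => 2 * (conj ⟪x k, y⟫_ℂ * (⟪x k, x i⟫_ℂ * ⟪x i, w⟫_ℂ)).re with hb
  have hbk : b k = 0 := by
    simp only [hb, hkw, mul_zero, Complex.zero_re]
  have hδR : ∀ i, i ∉ R → δ i = 0 := by
    intro i hi
    simp only [hδ, hqR i hi, sub_self]
  have Sb : ∑ i, b i = 0 := by
    have h := FrameCrit.sic_frame hd hcard x h1 h2 (x k) w
    rw [hkw, mul_zero] at h
    simp only [hb]
    rw [← mul_sum, ← Complex.re_sum, ← mul_sum, h, mul_zero, Complex.zero_re, mul_zero]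
  have Sbq : ∑ i, b i * q i = 2 * D / (D + 1) * q k * t := by
    have h := FrameCrit.sic_design hd hcard x h1 h2 (x k) w y y
    rw [hkw, hyy, hyw, mul_comm (0 : ℂ), mul_zero, add_zero] at h
    have e1 : ∀ i, b i * q i = 2 * (conj ⟪x k, y⟫_ℂ *
        ((⟪x k, x i⟫_ℂ * ⟪x i, w⟫_ℂ) * (⟪y, x i⟫_ℂ * ⟪x i, y⟫_ℂ))).re := by
      intro i
      rw [mul_comm ⟪y, x i⟫_ℂ, normSq_inner]
      have e0 : conj ⟪x k, y⟫_ℂ * ((⟪x k, x i⟫_ℂ * ⟪x i, w⟫_ℂ) * ((‖⟪x i, y⟫_ℂ‖ ^ 2 : ℝ) : ℂ)) =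
          (conj ⟪x k, y⟫_ℂ * (⟪x k, x i⟫_ℂ * ⟪x i, w⟫_ℂ)) * ((‖⟪x i, y⟫_ℂ‖ ^ 2 : ℝ) : ℂ) := by ring
      rw [e0, Complex.re_mul_ofReal]
      simp only [hb, hqdef]
      ring
    rw [sum_congr rfl fun i _ => e1 i, ← mul_sum, ← Complex.re_sum, ← mul_sum, h]
    have e2 : conj ⟪x k, y⟫_ℂ * ((d : ℂ) / (d + 1) * (⟪x k, y⟫_ℂ * ((t : ℝ) : ℂ))) =
        (((D / (D + 1)) * (q k * t) : ℝ) : ℂ) := by
      have e3 : conj ⟪x k, y⟫_ℂ * ⟪x k, y⟫_ℂ = ((q k : ℝ) : ℂ) := by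
        rw [mul_comm, Complex.mul_conj, Complex.normSq_eq_norm_sq]
      calc conj ⟪x k, y⟫_ℂ * ((d : ℂ) / (d + 1) * (⟪x k, y⟫_ℂ * ((t : ℝ) : ℂ)))
          = (d : ℂ) / (d + 1) * ((conj ⟪x k, y⟫_ℂ * ⟪x k, y⟫_ℂ) * ((t : ℝ) : ℂ)) := by ring
        _ = _ := by
          rw [e3, hDdef]
          push_cast
          ring
    rw [e2, Complex.ofReal_re]
    ring
  have Sbδ : ∑ i ∈ R.erase k, b i * δ i = 2 * D / u ^ 2 * q k * t := by
    have h3 : ∑ i, b i * δ i = 2 * D / (D + 1) * q k * t := by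
      simp only [hδ, mul_sub]
      rw [sum_sub_distrib, ← sum_mul, Sb, zero_mul, sub_zero]
      exact Sbq
    rw [hu2, ← h3]
    have h4 : ∑ i, b i * δ i = ∑ i ∈ R, b i * δ i := by
      symm
      apply sum_subset (subset_univ R)
      intro i _ hi
      rw [hδR i hi, mul_zero]
    rw [h4, ← add_sum_erase R _ hkR, hbk, zero_mul, zero_add]
  have Sδ : ∑ i ∈ R.erase k, δ i = t := by
    have h3 := add_sum_erase R δ hkR
    have h4 : ∑ i ∈ R, δ i = D / (D + 1) := by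
      simp only [hδ]
      rw [sum_sub_distrib, sum_const, nsmul_eq_mul, SR1]
      field_simp
      ring
    rw [h4] at h3
    have h5 : δ k = q k - 1 / (D + 1) := rfl
    have h6 : D / (D + 1) + 1 / (D + 1) = 1 := by field_simp
    linarith
  have Sδ2 : ∑ i ∈ R.erase k, δ i ^ 2 = 2 * t * D / u ^ 2 - t ^ 2 := by
    have h3 := add_sum_erase R (fun i => δ i ^ 2) hkR
    have h4 : ∑ i ∈ R, δ i ^ 2 = (D / (D + 1)) ^ 2 := by
      have h5 : ∀ i ∈ R, δ i ^ 2 = q i ^ 2 - 2 / (D + 1) * q i + 1 / (D + 1) ^ 2 := by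
        intro i _
        have e : δ i = q i - 1 / (D + 1) := rfl
        rw [e]
        field_simp
        ring
      rw [sum_congr rfl h5, sum_add_distrib, sum_sub_distrib, ← mul_sum, sum_const,
        nsmul_eq_mul, SR1, SR2]
      field_simp
      ring
    rw [h4] at h3
    have h5 : δ k = q k - 1 / (D + 1) := rfl
    simp only [h5] at h3
    have h6 : q k = 1 - t := by rw [ht]; ring
    rw [h6] at h3
    rw [hu2]
    have h7 : (1 - t - 1 / (D + 1)) = D / (D + 1) - t := by field_simp; ring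
    rw [h7] at h3
    have h8 : ∑ i ∈ R.erase k, δ i ^ 2 = (D / (D + 1)) ^ 2 - (D / (D + 1) - t) ^ 2 := by linarith
    rw [h8]
    ring
  have hbabs : ∀ i, i ≠ k → |b i| ≤ 2 * √(q k) / u * ‖⟪x i, w⟫_ℂ‖ := by
    intro i hi
    have h3 : |b i| ≤ 2 * ‖conj ⟪x k, y⟫_ℂ * (⟪x k, x i⟫_ℂ * ⟪x i, w⟫_ℂ)‖ := by
      simp only [hb]
      rw [abs_mul, abs_of_pos (by norm_num : (0 : ℝ) < 2)]
      exact mul_le_mul_of_nonneg_left (Complex.abs_re_le_norm _) (by norm_num)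
    refine h3.trans (le_of_eq ?_)
    rw [norm_mul, norm_mul, RCLike.norm_conj, h2 k i (Ne.symm hi)]
    have h4 : √(q k) = ‖⟪x k, y⟫_ℂ‖ := by
      simp only [hqdef]
      exact Real.sqrt_sq (norm_nonneg _)
    rw [h4]
    ring
  have hwle : ∀ i, i ≠ k → ‖⟪x i, w⟫_ℂ‖ ≤ √(q i) + √(q k) / u := by
    intro i hi
    rw [hw, inner_sub_right, inner_smul_right]
    refine (norm_sub_le _ _).trans (le_of_eq ?_)
    rw [norm_mul, h2 i k hi]
    simp only [hqdef]
    rw [Real.sqrt_sq (norm_nonneg _), Real.sqrt_sq (norm_nonneg _)]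
    ring
  have hcardE : (((R.erase k).card : ℕ) : ℝ) = (R.card : ℝ) - 1 := by
    rw [card_erase_of_mem hkR, Nat.cast_sub hRne.card_pos]
    simp
  refine ⟨hRne.card_pos, q k, t, hqk0, ht0, by rw [ht]; ring, hqk1, ?_, ?_⟩
  · have h := ineqA (R.erase k) δ b D u (q k) t hu0 hqk0
      (fun i _ => by
        rw [hu2]
        have := hq0 i
        simp only [hδ]
        linarith)
      (fun i hi => by
        rw [hu2]
        have := hkmax i (mem_of_mem_erase hi)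
        simp only [hδ]
        linarith)
      (fun i hi => by
        have hik := ne_of_mem_erase hi
        have e : δ i + 1 / u ^ 2 = q i := by
          rw [hu2]
          simp only [hδ]
          ring
        rw [e]
        exact (hbabs i hik).trans (mul_le_mul_of_nonneg_left (hwle i hik) (by positivity)))
      Sδ Sbδ
    rw [hcardE, hu2] at h
    exact h
  · have h := ineqB (R.erase k) δ b (fun i => ‖⟪x i, w⟫_ℂ‖ ^ 2) D u (q k) t hu0 hqk0 ht0 hD.le
      (fun i _ => sq_nonneg _)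
      (fun i hi => by
        have h3 := hbabs i (ne_of_mem_erase hi)
        have h4 : b i ^ 2 ≤ (2 * √(q k) / u * ‖⟪x i, w⟫_ℂ‖) ^ 2 := by
          rw [← sq_abs]
          exact pow_le_pow_left₀ (abs_nonneg _) h3 2
        refine h4.trans (le_of_eq ?_)
        have h5 : √(q k) ^ 2 = q k := Real.sq_sqrt hqk0.le
        calc (2 * √(q k) / u * ‖⟪x i, w⟫_ℂ‖) ^ 2 = 4 * √(q k) ^ 2 / u ^ 2 * ‖⟪x i, w⟫_ℂ‖ ^ 2 := by ring
          _ = _ := by rw [h5])
      (by
        have hdes := FrameCrit.sic_design hd hcard x h1 h2 w w w w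
        rw [hww] at hdes
        have h3 : ∑ i, (‖⟪x i, w⟫_ℂ‖ ^ 2) ^ 2 = 2 * D / u ^ 2 * t ^ 2 := by
          have h' : ((∑ i, (‖⟪x i, w⟫_ℂ‖ ^ 2) ^ 2 : ℝ) : ℂ) = ((2 * D / u ^ 2 * t ^ 2 : ℝ) : ℂ) := by
            have e : ((2 * D / u ^ 2 * t ^ 2 : ℝ) : ℂ) = ((d : ℂ) / (d + 1)) *
                (((t : ℝ) : ℂ) * ((t : ℝ) : ℂ) + ((t : ℝ) : ℂ) * ((t : ℝ) : ℂ)) := by
              rw [hu2, hDdef]
              push_cast
              ring
            rw [e, ← hdes]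
            push_cast
            apply sum_congr rfl
            intro i _
            rw [mul_comm ⟪w, x i⟫_ℂ, normSq_inner]
            push_cast
            ring
          exact Complex.ofReal_injective h'
        rw [← h3]
        exact sum_le_sum_of_subset_of_nonneg (subset_univ _) fun i _ _ => sq_nonneg _)
      Sδ2 Sbδ
    rw [hcardE, hu2] at h
    exact h

end Pool.Agent.V11226.SU
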