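import Mathlib
import Pool.Agent.V11226.SU.Core

set_option autoImplicit false
set_option linter.unusedSectionVars false

namespace Pool.Agent.V11226.SU

open scoped InnerProductSpace ComplexConjugate
open Finset Pool.Agent.H103R3

variable {d : ℕ}

section
variable {κ : Type*} [Fintype κ] [DecidableEq κ]

/-- the value of the symmetric tensor `∑ c s x s ⊗ x s` at `x k` -/
noncomputable def hh (x : κ → EuclideanSpace ℂ (Fin d)) (S : Finset κ) (c : κ → ℂ) (k : κ) : ℂ :=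
  ∑ s ∈ S, c s * ⟪x k, x s⟫_ℂ ^ 2

/-- the square of the norm of this tensor -/
noncomputable def QQ (x : κ → EuclideanSpace ℂ (Fin d)) (S : Finset κ) (c : κ → ℂ) : ℂ :=
  ∑ s ∈ S, ∑ t ∈ S, conj (c s) * c t * ⟪x s, x t⟫_ℂ ^ 2

theorem sum_hh (hd : 0 < d) (hcard : Fintype.card κ = d ^ 2)
    (x : κ → EuclideanSpace ℂ (Fin d)) (h1 : ∀ k, ‖x k‖ = 1)
    (h2 : ∀ k l, k ≠ l → ‖⟪x k, x l⟫_ℂ‖ = 1 / Real.sqrt ((d : ℝ) + 1))
    (S : Finset κ) (c : κ → ℂ) :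
    ((∑ k, ‖hh x S c k‖ ^ 2 : ℝ) : ℂ) = (2 * (d : ℂ) / (d + 1)) * QQ x S c := by
  have e1 : ∀ k, ((‖hh x S c k‖ ^ 2 : ℝ) : ℂ) = ∑ s ∈ S, ∑ t ∈ S, conj (c s) * c t *
      ((⟪x s, x k⟫_ℂ * ⟪x k, x t⟫_ℂ) * (⟪x s, x k⟫_ℂ * ⟪x k, x t⟫_ℂ)) := by
    intro k
    have e2 : ((‖hh x S c k‖ ^ 2 : ℝ) : ℂ) = conj (hh x S c k) * hh x S c k := by
      rw [mul_comm, Complex.mul_conj, Complex.normSq_eq_norm_sq]
    rw [e2, hh, map_sum, sum_mul_sum]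
    refine sum_congr rfl fun s _ => sum_congr rfl fun t _ => ?_
    rw [map_mul, map_pow, inner_conj_symm]
    ring
  push_cast
  have e3 : ∀ k, ((‖hh x S c k‖ : ℂ)) ^ 2 = ∑ s ∈ S, ∑ t ∈ S, conj (c s) * c t *
      ((⟪x s, x k⟫_ℂ * ⟪x k, x t⟫_ℂ) * (⟪x s, x k⟫_ℂ * ⟪x k, x t⟫_ℂ)) := by
    intro k
    rw [← e1 k]
    push_cast
    rfl
  rw [sum_congr rfl fun k _ => e3 k, sum_comm, QQ, mul_sum]
  refine sum_congr rfl fun s _ => ?_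
  rw [sum_comm, mul_sum]
  refine sum_congr rfl fun t _ => ?_
  rw [← mul_sum, FrameCrit.sic_design hd hcard x h1 h2 (x s) (x t) (x s) (x t)]
  ring

theorem QQ_eq (x : κ → EuclideanSpace ℂ (Fin d)) (S : Finset κ) (c : κ → ℂ) :
    QQ x S c = ∑ s ∈ S, conj (c s) * hh x S c s := by
  unfold QQ hh
  refine sum_congr rfl fun s _ => ?_
  rw [mul_sum]
  refine sum_congr rfl fun t _ => ?_
  ring

theorem QQ_bounds (hd : 0 < d) (hcard : Fintype.card κ = d ^ 2)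
    (x : κ → EuclideanSpace ℂ (Fin d)) (h1 : ∀ k, ‖x k‖ = 1)
    (h2 : ∀ k l, k ≠ l → ‖⟪x k, x l⟫_ℂ‖ = 1 / Real.sqrt ((d : ℝ) + 1))
    (S : Finset κ) (c : κ → ℂ) :
    0 ≤ (QQ x S c).re ∧ (QQ x S c).re ≤ 2 * (d : ℝ) / (d + 1) * ∑ s ∈ S, ‖c s‖ ^ 2 := by
  have hD : (0 : ℝ) < (d : ℝ) := by exact_mod_cast hd
  have hsum := sum_hh hd hcard x h1 h2 S c
  have hre : ∑ k, ‖hh x S c k‖ ^ 2 = 2 * (d : ℝ) / (d + 1) * (QQ x S c).re := by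
    have h := congrArg Complex.re hsum
    rw [Complex.ofReal_re] at h
    have e : (2 * (d : ℂ) / (d + 1)) = ((2 * (d : ℝ) / (d + 1) : ℝ) : ℂ) := by
      push_cast
      ring
    rw [e, Complex.re_ofReal_mul] at h
    exact h
  have hc0 : 0 < 2 * (d : ℝ) / (d + 1) := by positivity
  have hQ0 : 0 ≤ (QQ x S c).re := by
    have h3 : 0 ≤ 2 * (d : ℝ) / (d + 1) * (QQ x S c).re := by
      rw [← hre]
      exact sum_nonneg fun k _ => sq_nonneg _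
    exact nonneg_of_mul_nonneg_right h3 hc0
  refine ⟨hQ0, ?_⟩
  -- Cauchy-Schwarz
  have hle : (QQ x S c).re ≤ ∑ s ∈ S, ‖c s‖ * ‖hh x S c s‖ := by
    refine (Complex.re_le_norm _).trans ?_
    rw [QQ_eq]
    refine (norm_sum_le _ _).trans (le_of_eq ?_)
    refine sum_congr rfl fun s _ => ?_
    rw [norm_mul, RCLike.norm_conj]
  have hcs : (∑ s ∈ S, ‖c s‖ * ‖hh x S c s‖) ^ 2 ≤
      (∑ s ∈ S, ‖c s‖ ^ 2) * ∑ s ∈ S, ‖hh x S c s‖ ^ 2 := sum_mul_sq_le_sq_mul_sq S _ _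
  have hsub : ∑ s ∈ S, ‖hh x S c s‖ ^ 2 ≤ 2 * (d : ℝ) / (d + 1) * (QQ x S c).re := by
    rw [← hre]
    exact sum_le_sum_of_subset_of_nonneg (subset_univ _) fun i _ _ => sq_nonneg _
  have hsq : (QQ x S c).re ^ 2 ≤ (∑ s ∈ S, ‖c s‖ ^ 2) * (2 * (d : ℝ) / (d + 1) * (QQ x S c).re) := by
    refine (pow_le_pow_left₀ hQ0 hle 2).trans (hcs.trans ?_)
    exact mul_le_mul_of_nonneg_left hsub (sum_nonneg fun _ _ => sq_nonneg _)
  rcases hQ0.lt_or_eq with h | h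
  · have h3 : (QQ x S c).re * (QQ x S c).re ≤
        (QQ x S c).re * (2 * (d : ℝ) / (d + 1) * ∑ s ∈ S, ‖c s‖ ^ 2) := by
      nlinarith
    exact le_of_mul_le_mul_left h3 h
  · rw [← h]
    exact mul_nonneg hc0.le (sum_nonneg fun _ _ => sq_nonneg _)

/-- the triple product -/
noncomputable def TT (x : κ → EuclideanSpace ℂ (Fin d)) (i j k : κ) : ℂ :=
  ⟪x i, x j⟫_ℂ * ⟪x j, x k⟫_ℂ * ⟪x k, x i⟫_ℂ

/-- the doubled phases of the triples `i, s, t`, `s, t ∈ S` -/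
noncomputable def CC (x : κ → EuclideanSpace ℂ (Fin d)) (i : κ) (S : Finset κ) : ℝ :=
  ∑ s ∈ S, ∑ t ∈ S.erase s, ((d : ℝ) + 1) ^ 3 * (TT x i s t ^ 2).re

theorem QQ_star (hd : 0 < d)
    (x : κ → EuclideanSpace ℂ (Fin d)) (h1 : ∀ k, ‖x k‖ = 1)
    (h2 : ∀ k l, k ≠ l → ‖⟪x k, x l⟫_ℂ‖ = 1 / Real.sqrt ((d : ℝ) + 1))
    (i : κ) (S : Finset κ) (hi : i ∉ S) (a : ℝ) :
    ∃ c : κ → ℂ, ∑ s ∈ insert i S, ‖c s‖ ^ 2 = a ^ 2 + S.card ∧
      (QQ x (insert i S) c).re = a ^ 2 + S.card + 2 * a * S.card / ((d : ℝ) + 1) +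
        CC x i S / ((d : ℝ) + 1) := by
  have hD : (0 : ℝ) < (d : ℝ) := by exact_mod_cast hd
  have hne : ∀ s ∈ S, s ≠ i := fun s hs h => hi (h ▸ hs)
  have hxx : ∀ k, ⟪x k, x k⟫_ℂ = 1 := by
    intro k
    rw [inner_self_eq_norm_sq_to_K, h1]; simp
  have hsq : √((d : ℝ) + 1) ^ 2 = (d : ℝ) + 1 := Real.sq_sqrt (by linarith)
  have hpair : ∀ k l, k ≠ l → ⟪x k, x l⟫_ℂ * ⟪x l, x k⟫_ℂ = ((1 / ((d : ℝ) + 1) : ℝ) : ℂ) := by
    intro k l hkl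
    rw [normSq_inner, h2 k l hkl, div_pow, one_pow, hsq]
  have hdC : ((d : ℂ) + 1) ≠ 0 := by
    have : (((d : ℝ) + 1 : ℝ) : ℂ) ≠ 0 := by
      rw [Ne, Complex.ofReal_eq_zero]
      linarith
    push_cast at this
    exact this
  set c : κ → ℂ := fun s => if s = i then (a : ℂ) else ((d : ℂ) + 1) * ⟪x s, x i⟫_ℂ ^ 2 with hc
  have hci : c i = (a : ℂ) := by simp [hc]
  have hcs : ∀ s ∈ S, c s = ((d : ℂ) + 1) * ⟪x s, x i⟫_ℂ ^ 2 := by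
    intro s hs
    simp [hc, hne s hs]
  have hcc : ∀ s ∈ S, conj (c s) = ((d : ℂ) + 1) * ⟪x i, x s⟫_ℂ ^ 2 := by
    intro s hs
    rw [hcs s hs, map_mul, map_pow, inner_conj_symm]
    simp
  have hcn : ∀ s ∈ S, ‖c s‖ = 1 := by
    intro s hs
    rw [hcs s hs, norm_mul, norm_pow, h2 s i (hne s hs), div_pow, one_pow, hsq]
    have : ‖((d : ℂ) + 1)‖ = (d : ℝ) + 1 := by
      have e : ((d : ℂ) + 1) = (((d : ℝ) + 1 : ℝ) : ℂ) := by push_cast; rfl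
      rw [e, Complex.norm_real, Real.norm_eq_abs, abs_of_pos (by linarith)]
    rw [this]
    field_simp
  refine ⟨c, ?_, ?_⟩
  · rw [sum_insert hi, hci, sum_congr rfl fun s hs => by rw [hcn s hs]]
    simp
  · have hsame : ∀ s ∈ S, conj (c s) * c s * ⟪x s, x s⟫_ℂ ^ 2 = 1 := by
      intro s hs
      rw [hxx, one_pow, mul_one, mul_comm, Complex.mul_conj, Complex.normSq_eq_norm_sq, hcn s hs]
      simp
    have hoff : ∀ s ∈ S, ∀ t ∈ S.erase s, conj (c s) * c t * ⟪x s, x t⟫_ℂ ^ 2 =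
        (((d : ℝ) + 1) ^ 2 : ℝ) * TT x i s t ^ 2 := by
      intro s hs t ht
      rw [hcc s hs, hcs t (mem_of_mem_erase ht), TT]
      push_cast
      ring
    have hrow : ∀ s ∈ S, (∑ t ∈ insert i S, conj (c s) * c t * ⟪x s, x t⟫_ℂ ^ 2).re =
        a / ((d : ℝ) + 1) + 1 +
          ∑ t ∈ S.erase s, ((d : ℝ) + 1) ^ 2 * (TT x i s t ^ 2).re := by
      intro s hs
      rw [sum_insert hi, ← add_sum_erase S _ hs, hsame s hs, sum_congr rfl (hoff s hs),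
        Complex.add_re, Complex.add_re, Complex.re_sum, Complex.one_re]
      have e1 : conj (c s) * c i * ⟪x s, x i⟫_ℂ ^ 2 = ((a / ((d : ℝ) + 1) : ℝ) : ℂ) := by
        rw [hcc s hs, hci]
        have e2 : ((d : ℂ) + 1) * ⟪x i, x s⟫_ℂ ^ 2 * (a : ℂ) * ⟪x s, x i⟫_ℂ ^ 2 =
            ((d : ℂ) + 1) * (a : ℂ) * (⟪x i, x s⟫_ℂ * ⟪x s, x i⟫_ℂ) ^ 2 := by ring
        rw [e2, hpair i s (Ne.symm (hne s hs))]
        push_cast
        field_simp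
      rw [e1, Complex.ofReal_re]
      have e3 : ∑ t ∈ S.erase s, ((((d : ℝ) + 1) ^ 2 : ℝ) * TT x i s t ^ 2 : ℂ).re =
          ∑ t ∈ S.erase s, ((d : ℝ) + 1) ^ 2 * (TT x i s t ^ 2).re :=
        sum_congr rfl fun t _ => Complex.re_ofReal_mul _ _
      rw [e3]
      ring
    have hrowi : (∑ t ∈ insert i S, conj (c i) * c t * ⟪x i, x t⟫_ℂ ^ 2).re =
        a ^ 2 + a * S.card / ((d : ℝ) + 1) := by
      rw [sum_insert hi, hci, hxx, Complex.add_re]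
      have e1 : ∀ t ∈ S, conj (a : ℂ) * c t * ⟪x i, x t⟫_ℂ ^ 2 = ((a / ((d : ℝ) + 1) : ℝ) : ℂ) := by
        intro t ht
        rw [hcs t ht, Complex.conj_ofReal]
        have e2 : (a : ℂ) * (((d : ℂ) + 1) * ⟪x t, x i⟫_ℂ ^ 2) * ⟪x i, x t⟫_ℂ ^ 2 =
            ((d : ℂ) + 1) * (a : ℂ) * (⟪x t, x i⟫_ℂ * ⟪x i, x t⟫_ℂ) ^ 2 := by ring
        rw [e2, hpair t i (hne t ht)]
        push_cast
        field_simp
      rw [sum_congr rfl e1, sum_const, nsmul_eq_mul, Complex.conj_ofReal]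
      have e3 : ((a : ℂ) * a * 1 ^ 2).re = a ^ 2 := by
        rw [one_pow, mul_one, ← Complex.ofReal_mul, Complex.ofReal_re, sq]
      have e4 : (((S.card : ℕ) : ℂ) * ((a / ((d : ℝ) + 1) : ℝ) : ℂ)).re =
          a * S.card / ((d : ℝ) + 1) := by
        have : (((S.card : ℕ) : ℂ) * ((a / ((d : ℝ) + 1) : ℝ) : ℂ)) =
            ((a * S.card / ((d : ℝ) + 1) : ℝ) : ℂ) := by
          push_cast
          ring
        rw [this, Complex.ofReal_re]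
      rw [e3, e4]
    unfold QQ
    rw [sum_insert hi, Complex.add_re, hrowi, Complex.re_sum, sum_congr rfl hrow,
      sum_add_distrib, sum_const, nsmul_eq_mul]
    have e5 : ∑ s ∈ S, ∑ t ∈ S.erase s, ((d : ℝ) + 1) ^ 2 * (TT x i s t ^ 2).re =
        CC x i S / ((d : ℝ) + 1) := by
      rw [eq_div_iff (by linarith), CC, sum_mul]
      refine sum_congr rfl fun s _ => ?_
      rw [sum_mul]
      refine sum_congr rfl fun t _ => ?_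
      ring
    rw [e5]
    ring

/-- two-sided bounds for the sums of the doubled phases -/
theorem CC_bounds (hd : 2 ≤ d) (hcard : Fintype.card κ = d ^ 2)
    (x : κ → EuclideanSpace ℂ (Fin d)) (h1 : ∀ k, ‖x k‖ = 1)
    (h2 : ∀ k l, k ≠ l → ‖⟪x k, x l⟫_ℂ‖ = 1 / Real.sqrt ((d : ℝ) + 1))
    (i : κ) (S : Finset κ) (hi : i ∉ S) :
    (S.card : ℝ) ^ 2 / ((d : ℝ) + 1) - ((d : ℝ) + 1) * S.card ≤ CC x i S ∧
      CC x i S ≤ ((d : ℝ) - 1) * S.card - (S.card : ℝ) ^ 2 / ((d : ℝ) - 1) := by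
  have hd0 : 0 < d := by omega
  have hD : (2 : ℝ) ≤ (d : ℝ) := by exact_mod_cast hd
  constructor
  · obtain ⟨c, -, hQ⟩ := QQ_star hd0 x h1 h2 i S hi (-(S.card : ℝ) / ((d : ℝ) + 1))
    have h3 := (QQ_bounds hd0 hcard x h1 h2 (insert i S) c).1
    rw [hQ] at h3
    have h4 := mul_nonneg h3 (by linarith : (0 : ℝ) ≤ (d : ℝ) + 1)
    have e : ((-(S.card : ℝ) / ((d : ℝ) + 1)) ^ 2 + S.card +
        2 * (-(S.card : ℝ) / ((d : ℝ) + 1)) * S.card / ((d : ℝ) + 1) +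
        CC x i S / ((d : ℝ) + 1)) * ((d : ℝ) + 1) =
        CC x i S - ((S.card : ℝ) ^ 2 / ((d : ℝ) + 1) - ((d : ℝ) + 1) * S.card) := by
      have : (d : ℝ) + 1 ≠ 0 := by linarith
      field_simp
      ring
    rw [e] at h4
    linarith
  · obtain ⟨c, hn, hQ⟩ := QQ_star hd0 x h1 h2 i S hi ((S.card : ℝ) / ((d : ℝ) - 1))
    have h3 := (QQ_bounds hd0 hcard x h1 h2 (insert i S) c).2
    rw [hQ, hn] at h3
    have h4 := mul_le_mul_of_nonneg_right h3 (by linarith : (0 : ℝ) ≤ (d : ℝ) + 1)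
    have hne1 : (d : ℝ) + 1 ≠ 0 := by linarith
    have hne2 : (d : ℝ) - 1 ≠ 0 := by linarith
    have e1 : (((S.card : ℝ) / ((d : ℝ) - 1)) ^ 2 + S.card +
        2 * ((S.card : ℝ) / ((d : ℝ) - 1)) * S.card / ((d : ℝ) + 1) +
        CC x i S / ((d : ℝ) + 1)) * ((d : ℝ) + 1) =
        (((S.card : ℝ) / ((d : ℝ) - 1)) ^ 2 + S.card) * ((d : ℝ) + 1) +
          2 * (S.card : ℝ) ^ 2 / ((d : ℝ) - 1) + CC x i S := by
      field_simp
    have e2 : 2 * (d : ℝ) / (d + 1) * (((S.card : ℝ) / ((d : ℝ) - 1)) ^ 2 + S.card) *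
        ((d : ℝ) + 1) = 2 * (d : ℝ) * (((S.card : ℝ) / ((d : ℝ) - 1)) ^ 2 + S.card) := by
      field_simp
    rw [e1, e2] at h4
    have e3 : ((d : ℝ) - 1) * ((S.card : ℝ) / ((d : ℝ) - 1)) ^ 2 =
        (S.card : ℝ) ^ 2 / ((d : ℝ) - 1) := by
      field_simp
    have e4 : 2 * (S.card : ℝ) ^ 2 / ((d : ℝ) - 1) = 2 * ((S.card : ℝ) ^ 2 / ((d : ℝ) - 1)) := by
      ring
    rw [e4] at h4
    nlinarith

end

end Pool.Agent.V11226.SU
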