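import Mathlib
import Pool.Agent.V11226.SU.Core

set_option autoImplicit false

namespace Pool.Agent.V11226.SU

open scoped InnerProductSpace ComplexConjugate
open Finset

lemma inv_sqrt_le {q β : ℝ} (hq : 0 < q) (hβ : 0 ≤ β) (h : 1 ≤ q * (1 + β)) :
    1 / √q ≤ √(1 + β) := by
  rw [div_le_iff₀ (Real.sqrt_pos.mpr hq), mul_comm, ← Real.sqrt_mul hq.le]
  rw [Real.one_le_sqrt]
  exact h

/-- the explicit range -/
lemma contra1 {D u β q t : ℝ} (hD : 35 ≤ D) (hu0 : 0 < u) (hu2 : u ^ 2 = D + 1)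
    (hβ0 : 0 ≤ β) (hβ : β ≤ u / 4) (hq : 0 < q) (ht : 0 < t) (hqt : q + t = 1)
    (h1 : 1 ≤ q * (1 + β))
    (hA : D * t ≤ (u + 1) * t + β * (u + 2 + 1 / √q))
    (hB : q * D ^ 2 ≤ √(2 * D * β) * (2 * D - t * (D + 1))) : False := by
  have hu6 : 6 ≤ u := by nlinarith
  have hs1 : √(2 * D * β) ≤ 0.2928 * D := by
    rw [Real.sqrt_le_left (by linarith)]
    have h2 : 2 * D * β ≤ 2 * D * (u / 4) := mul_le_mul_of_nonneg_left hβ (by linarith)
    have h3 : u / 2 ≤ 0.2928 ^ 2 * D := by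
      have : D = u ^ 2 - 1 := by linarith
      rw [this]
      nlinarith
    nlinarith
  have ht1 : t ≤ 1 := by linarith
  have h4 : 0 ≤ 2 * D - t * (D + 1) := by nlinarith
  have h5 : q * D ^ 2 ≤ 0.2928 * D * (2 * D - t * (D + 1)) :=
    hB.trans (mul_le_mul_of_nonneg_right hs1 h4)
  have h6 : q * D ≤ 0.2928 * (2 * D - t * (D + 1)) := by
    have h7 : D * (q * D) ≤ D * (0.2928 * (2 * D - t * (D + 1))) := by nlinarith
    exact le_of_mul_le_mul_left h7 (by linarith)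
  have hq2 : q ≤ 0.4141 := by
    have ht' : t = 1 - q := by linarith
    rw [ht'] at h6
    by_contra hc
    push Not at hc
    nlinarith
  have hs2 : 1 / √q ≤ 0.08 * u + 1.11 := by
    refine (inv_sqrt_le hq hβ0 h1).trans ?_
    rw [Real.sqrt_le_left (by linarith)]
    nlinarith [sq_nonneg (u - 5.65)]
  have h8 : β * (u + 2 + 1 / √q) ≤ u / 4 * (u + 2 + (0.08 * u + 1.11)) := by
    apply mul_le_mul hβ (by linarith) _ (by linarith)
    have : 0 < 1 / √q := by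
      have := Real.sqrt_pos.mpr hq
      positivity
    linarith
  have h9 : D * t ≤ (u + 1) * t + u / 4 * (u + 2 + (0.08 * u + 1.11)) := by linarith
  have hDu : D = u ^ 2 - 1 := by linarith
  rw [hDu] at h9
  have ht3 : 0.5859 ≤ t := by linarith
  have h10 : 0 ≤ u ^ 2 - u - 2 := by nlinarith
  have h11 : 0.5859 * (u ^ 2 - u - 2) ≤ t * (u ^ 2 - u - 2) := mul_le_mul_of_nonneg_right ht3 h10
  nlinarith

/-- the asymptotic range -/
lemma contra2 {D u β q t ε : ℝ} (hε : 0 < ε) (hε1 : ε ≤ 1) (hD : 20736 / ε ^ 4 ≤ D + 1)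
    (hu0 : 0 < u) (hu2 : u ^ 2 = D + 1)
    (hβ0 : 0 ≤ β) (hβ : β ≤ (1 - ε) * u) (hq : 0 < q) (ht : 0 < t) (hqt : q + t = 1)
    (h1 : 1 ≤ q * (1 + β))
    (hA : D * t ≤ (u + 1) * t + β * (u + 2 + 1 / √q))
    (hB : q * D ^ 2 ≤ √(2 * D * β) * (2 * D - t * (D + 1))) : False := by
  set v : ℝ := √u with hv
  have hv0 : 0 < v := Real.sqrt_pos.mpr hu0
  have hv2 : v ^ 2 = u := Real.sq_sqrt hu0.le
  have hv4 : v ^ 4 = D + 1 := by rw [← hu2, ← hv2]; ring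
  have hεv : 12 ≤ ε * v := by
    have h2 : (12 : ℝ) ^ 4 ≤ (ε * v) ^ 4 := by
      rw [mul_pow, hv4]
      rw [div_le_iff₀ (by positivity)] at hD
      nlinarith
    exact le_of_pow_le_pow_left₀ (by norm_num) (by positivity) h2
  have hv12 : 12 ≤ v := by nlinarith
  have hu1 : 144 ≤ u := by nlinarith
  have hD1 : 100 ≤ D := by nlinarith
  have hβu : β ≤ u := by nlinarith
  -- q ≤ 4 / v
  have hs1 : √(2 * D * β) ≤ 2 * D / v := by
    rw [Real.sqrt_le_left (by positivity)]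
    have h2 : 2 * D * β ≤ 2 * D * u := mul_le_mul_of_nonneg_left hβu (by linarith)
    refine h2.trans ?_
    rw [div_pow, hv2, le_div_iff₀ hu0]
    nlinarith
  have h4 : 0 ≤ 2 * D - t * (D + 1) := by nlinarith
  have h5 : q * D ^ 2 ≤ 2 * D / v * (2 * D) := by
    refine hB.trans ((mul_le_mul_of_nonneg_right hs1 h4).trans ?_)
    apply mul_le_mul_of_nonneg_left _ (by positivity)
    nlinarith
  have hq2 : q * v ≤ 4 := by
    have h6 : q * D ^ 2 * v ≤ 4 * D ^ 2 := by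
      have h7 := mul_le_mul_of_nonneg_right h5 hv0.le
      have e : 2 * D / v * (2 * D) * v = 4 * D ^ 2 := by field_simp; ring
      rw [e] at h7
      exact h7
    have h8 : D ^ 2 * (q * v) ≤ D ^ 2 * 4 := by nlinarith
    exact le_of_mul_le_mul_left h8 (by positivity)
  have hs2 : 1 / √q ≤ 2 * v := by
    refine (inv_sqrt_le hq hβ0 h1).trans ?_
    rw [Real.sqrt_le_left (by linarith), mul_pow, hv2]
    linarith
  have hD' : D = v ^ 4 - 1 := by linarith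
  have h9 : t * (v ^ 4 - v ^ 2 - 2) ≤ β * (v ^ 2 + 2 + 2 * v) := by
    have h10 : β * (u + 2 + 1 / √q) ≤ β * (u + 2 + 2 * v) :=
      mul_le_mul_of_nonneg_left (by linarith) hβ0
    rw [hD', ← hv2] at hA
    rw [← hv2] at h10
    nlinarith
  have h10 : β * (v ^ 2 + 2 + 2 * v) ≤ (1 - ε) * v ^ 2 * (v ^ 2 + 2 + 2 * v) := by
    rw [hv2]
    exact mul_le_mul_of_nonneg_right hβ (by positivity)
  have h11 : 0 ≤ v ^ 4 - v ^ 2 - 2 := by nlinarith [sq_nonneg v]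
  have h12 : (v - 4) * (v ^ 4 - v ^ 2 - 2) ≤ (t * v) * (v ^ 4 - v ^ 2 - 2) := by
    apply mul_le_mul_of_nonneg_right _ h11
    have : t = 1 - q := by linarith
    rw [this]
    nlinarith
  have h13 : (t * v) * (v ^ 4 - v ^ 2 - 2) ≤ v * ((1 - ε) * v ^ 2 * (v ^ 2 + 2 + 2 * v)) := by
    have := mul_le_mul_of_nonneg_left (h9.trans h10) hv0.le
    nlinarith
  have h14 : v * ((1 - ε) * v ^ 2 * (v ^ 2 + 2 + 2 * v)) =
      v ^ 3 * (v ^ 2 + 2 + 2 * v) - (ε * v) * (v ^ 2 * (v ^ 2 + 2 + 2 * v)) := by ring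
  have h15 : 12 * (v ^ 2 * (v ^ 2 + 2 + 2 * v)) ≤ (ε * v) * (v ^ 2 * (v ^ 2 + 2 + 2 * v)) :=
    mul_le_mul_of_nonneg_right hεv (by positivity)
  have h16 : (v - 4) * (v ^ 4 - v ^ 2 - 2) ≤
      v ^ 3 * (v ^ 2 + 2 + 2 * v) - 12 * (v ^ 2 * (v ^ 2 + 2 + 2 * v)) := by linarith
  have h17 : v ^ 3 * (v ^ 2 + 2 + 2 * v) - 12 * (v ^ 2 * (v ^ 2 + 2 + 2 * v)) <
      (v - 4) * (v ^ 4 - v ^ 2 - 2) := by
    have : (v - 4) * (v ^ 4 - v ^ 2 - 2) -
        (v ^ 3 * (v ^ 2 + 2 + 2 * v) - 12 * (v ^ 2 * (v ^ 2 + 2 + 2 * v))) =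
        6 * v ^ 4 + 21 * v ^ 3 + 28 * v ^ 2 - 2 * v + 8 := by ring
    have h18 : 0 < 6 * v ^ 4 + 21 * v ^ 3 + 28 * v ^ 2 - 2 * v + 8 := by
      have : 2 * v ≤ 28 * v ^ 2 := by nlinarith
      have h19 : 0 < 6 * v ^ 4 := by positivity
      have h20 : 0 < 21 * v ^ 3 := by positivity
      linarith
    linarith
  linarith

end Pool.Agent.V11226.SU
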